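import Pool.Agent.Helper86.TH.Stmts

/-! # Row NT of the project TH -/

namespace TH50

open TH

theorem st_NT : ST_NT := by
  intro m n a b c d hm hn hA
  obtain ⟨h1, h2, h3⟩ := hA
  set g := Nat.gcd m n with hg
  have hg0 : 0 < g := Nat.gcd_pos_of_pos_left n hm
  have hgm : g ≤ m := Nat.le_of_dvd hm (Nat.gcd_dvd_left m n)
  have hgn : g ≤ n := Nat.le_of_dvd hn (Nat.gcd_dvd_right m n)
  have hI : a * n = b * m + g := by
    rw [← h2, ← h1, mul_add, mul_add, h3]; ring
  have hII : d * m = c * n + g := by
    rw [← h2, ← h1, mul_add, mul_add, mul_comm d a, h3]; ring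
  have ha : 0 < a := by
    rcases Nat.eq_zero_or_pos a with h | h
    · subst h; rw [zero_mul] at h3; omega
    · exact h
  have hd : 0 < d := by
    rcases Nat.eq_zero_or_pos d with h | h
    · subst h; rw [mul_zero] at h3; omega
    · exact h
  refine ⟨⟨by omega, by omega, ha, hd, ?_, ?_⟩, ?_, ?_, ?_⟩
  · intro hb
    subst hb
    rw [zero_mul, zero_add] at hI
    have : a * n ≤ 1 * n := by omega
    have := Nat.le_of_mul_le_mul_right this hn
    omega
  · intro hc
    subst hc
    rw [zero_mul, zero_add] at hII
    have : d * m ≤ 1 * m := by omega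
    have := Nat.le_of_mul_le_mul_right this hm
    omega
  · intro hmn
    have hab : a ≤ b := by
      by_contra h
      have h4 : b + 1 ≤ a := by omega
      have h5 : (b + 1) * m ≤ a * m := Nat.mul_le_mul_right m h4
      have h6 : a * m < a * n := Nat.mul_lt_mul_of_pos_left hmn ha
      have h7 : (b + 1) * m = b * m + m := by ring
      omega
    have hcd : c < d := by
      by_contra h
      have h4 : d ≤ c := by omega
      have h5 : d * m ≤ c * m := Nat.mul_le_mul_right m h4
      have h6 : c * m ≤ c * n := Nat.mul_le_mul_left c hmn.le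
      omega
    have hgd : Nat.gcd m (n - m) = g := by
      rw [hg, Nat.gcd_sub_self_right hmn.le]
    have hgl : g ≤ n - m := by
      rw [← hgd]; exact Nat.le_of_dvd (by omega) (Nat.gcd_dvd_right _ _)
    refine ⟨hab, hcd, ?_, h1, by omega, ?_⟩
    · intro hba
      subst hba
      have h4 : b * n = b * (n - m) + b * m := by
        rw [← mul_add]; congr 1; omega
      have h5 : b * (n - m) ≤ 1 * (n - m) := by omega
      have := Nat.le_of_mul_le_mul_right h5 (by omega)
      omega
    · rw [hgd]
      have h4 : a * d = a * (d - c) + a * c := by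
        rw [← mul_add]; congr 1; omega
      have h5 : b * c = (b - a) * c + a * c := by
        rw [← add_mul]; congr 1; omega
      omega
  · intro hmn
    have hab : b < a := by
      by_contra h
      have h4 : a ≤ b := by omega
      have h5 : a * n ≤ b * n := Nat.mul_le_mul_right n h4
      have h6 : b * n ≤ b * m := Nat.mul_le_mul_left b hmn.le
      omega
    have hcd : d ≤ c := by
      by_contra h
      have h4 : c + 1 ≤ d := by omega
      have h5 : (c + 1) * n ≤ d * n := Nat.mul_le_mul_right n h4
      have h6 : d * n < d * m := Nat.mul_lt_mul_of_pos_left hmn hd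
      have h7 : (c + 1) * n = c * n + n := by ring
      omega
    have hgd : Nat.gcd (m - n) n = g := by
      rw [hg, Nat.gcd_sub_self_left hmn.le]
    have hgl : g ≤ m - n := by
      rw [← hgd]; exact Nat.le_of_dvd (by omega) (Nat.gcd_dvd_left _ _)
    refine ⟨hab, hcd, ?_, by omega, h2, ?_⟩
    · intro hcd'
      subst hcd'
      have h4 : c * m = c * (m - n) + c * n := by
        rw [← mul_add]; congr 1; omega
      have h5 : c * (m - n) ≤ 1 * (m - n) := by omega
      have := Nat.le_of_mul_le_mul_right h5 (by omega)
      omega
    · rw [hgd]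
      have h4 : a * d = (a - b) * d + b * d := by
        rw [← add_mul]; congr 1; omega
      have h5 : b * c = b * (c - d) + b * d := by
        rw [← mul_add]; congr 1; omega
      omega
  · intro hmn
    subst hmn
    have hgm' : g = m := Nat.gcd_self m
    rw [hgm'] at hI hII
    constructor
    · have : a * m = (b + 1) * m := by rw [hI]; ring
      exact Nat.eq_of_mul_eq_mul_right hm this
    · have : d * m = (c + 1) * m := by rw [hII]; ring
      exact Nat.eq_of_mul_eq_mul_right hm this

end TH50
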