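import Pool.Agent.Helper86.TH.Stmts

/-! # Rows WM and WPM of the project TH -/

namespace TH50

open TH MvPolynomial Finset

set_option linter.unusedSectionVars false

noncomputable section
variable {K : Type*} [Field K] [CharZero K]

theorem cm_apply (q t : K) (U V : Module.End K (Sy K)) (F : Sy K) :
    cm q t U V F = (Mj q t 0)⁻¹ • (U (V F) - V (U F)) := rfl

theorem cm_add_left (q t : K) (U U' V : Module.End K (Sy K)) :
    cm q t (U + U') V = cm q t U V + cm q t U' V := by
  refine LinearMap.ext fun F => ?_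
  rw [LinearMap.add_apply, cm_apply, cm_apply, cm_apply, LinearMap.add_apply, LinearMap.add_apply,
    map_add, ← smul_add]
  congr 1
  abel

theorem cm_smul_left (q t : K) (c : K) (U V : Module.End K (Sy K)) :
    cm q t (c • U) V = c • cm q t U V := by
  refine LinearMap.ext fun F => ?_
  rw [LinearMap.smul_apply, cm_apply, cm_apply, LinearMap.smul_apply, LinearMap.smul_apply,
    map_smul, ← smul_sub, smul_comm]

theorem cm_zero_left (q t : K) (V : Module.End K (Sy K)) : cm q t 0 V = 0 := by
  refine LinearMap.ext fun F => ?_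
  rw [cm_apply]
  simp

theorem cm_swap (q t : K) (U V : Module.End K (Sy K)) :
    cm q t U V = -cm q t V U := by
  refine LinearMap.ext fun F => ?_
  rw [LinearMap.neg_apply, cm_apply, cm_apply, ← smul_neg, neg_sub]

theorem cm_add_right (q t : K) (U V V' : Module.End K (Sy K)) :
    cm q t U (V + V') = cm q t U V + cm q t U V' := by
  rw [cm_swap, cm_add_left, cm_swap q t V, cm_swap q t V', neg_add, neg_neg, neg_neg]

theorem cm_smul_right (q t : K) (c : K) (U V : Module.End K (Sy K)) :
    cm q t U (c • V) = c • cm q t U V := by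
  rw [cm_swap, cm_smul_left, cm_swap q t V, smul_neg, neg_neg]

theorem cm_neg_left (q t : K) (U V : Module.End K (Sy K)) :
    cm q t (-U) V = -cm q t U V := by
  refine LinearMap.ext fun F => ?_
  rw [LinearMap.neg_apply, cm_apply, cm_apply, LinearMap.neg_apply, LinearMap.neg_apply, map_neg,
    ← smul_neg]
  congr 1
  abel

theorem cm_neg_right (q t : K) (U V : Module.End K (Sy K)) :
    cm q t U (-V) = -cm q t U V := by
  rw [cm_swap, cm_neg_left, cm_swap q t V, neg_neg]

theorem cm_mul_left (q t : K) (U U' V : Module.End K (Sy K)) :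
    cm q t (U * U') V = U * cm q t U' V + cm q t U V * U' := by
  refine LinearMap.ext fun F => ?_
  rw [LinearMap.add_apply, Module.End.mul_apply, Module.End.mul_apply, cm_apply, cm_apply, cm_apply,
    Module.End.mul_apply, Module.End.mul_apply, map_smul, map_sub, ← smul_add]
  congr 1
  abel

theorem cm_one_left (q t : K) (V : Module.End K (Sy K)) : cm q t 1 V = 0 := by
  refine LinearMap.ext fun F => ?_
  rw [cm_apply]
  simp

/-- the commutator of a vertex operator with the multiplication by `e_1` -/
theorem cm_Dk (h1 : ST_DX K) {q t : K} (hM : Mj q t 0 ≠ 0) (k : ℤ) :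
    cm q t (Dk q t k) (mu (X 0)) = Dk q t (k + 1) := by
  rw [cm, h1 q t k, add_sub_cancel_left, smul_smul, inv_mul_cancel₀ hM, one_smul]

theorem WF_mul {q t : K} (m n : ℕ) (f g : ℤ → Module.End K (Sy K)) (hf : f ∈ WF q t m)
    (hg : g ∈ WF q t n) : (fun k => f k * g k) ∈ WF q t (m + n) := by
  change f * g ∈ WF q t (m + n)
  refine Submodule.span_induction (p := fun f _ => f * g ∈ WF q t (m + n)) ?_ ?_ ?_ ?_ hf
  · rintro _ ⟨L, hL, rfl⟩
    refine Submodule.span_induction (p := fun g _ => (fun k => (L.map (fun x => Dk q t (x + k))).prod)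
      * g ∈ WF q t (m + n)) ?_ ?_ ?_ ?_ hg
    · rintro _ ⟨L', hL', rfl⟩
      refine Submodule.subset_span ⟨L ++ L', by simp [hL, hL'], ?_⟩
      funext k
      simp
    · rw [mul_zero]; exact Submodule.zero_mem _
    · intro x y _ _ hx hy
      rw [mul_add]; exact Submodule.add_mem _ hx hy
    · intro c x _ hx
      rw [mul_smul_comm]; exact Submodule.smul_mem _ _ hx
  · rw [zero_mul]; exact Submodule.zero_mem _
  · intro x y _ _ hx hy
    rw [add_mul]; exact Submodule.add_mem _ hx hy
  · intro c x _ hx
    rw [smul_mul_assoc]; exact Submodule.smul_mem _ _ hx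

theorem WF_gen {q t : K} (L : List ℤ) :
    (fun k => (L.map (fun x => Dk q t (x + k))).prod) ∈ WF q t L.length :=
  Submodule.subset_span ⟨L, rfl, rfl⟩

theorem WF_single {q t : K} (x : ℤ) : (fun k => Dk q t (x + k)) ∈ WF q t 1 := by
  have := WF_gen (q := q) (t := t) [x]
  simpa using this

/-- the derivation on families -/
def fder (q t : K) (f : ℤ → Module.End K (Sy K)) : ℤ → Module.End K (Sy K) :=
  fun k => cm q t (f k) (mu (X 0))

theorem fder_add (q t : K) (x y : ℤ → Module.End K (Sy K)) :
    fder q t (x + y) = fder q t x + fder q t y := by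
  funext k
  exact cm_add_left q t _ _ _

theorem fder_smul (q t : K) (c : K) (x : ℤ → Module.End K (Sy K)) :
    fder q t (c • x) = c • fder q t x := by
  funext k
  exact cm_smul_left q t _ _ _

theorem fder_zero (q t : K) : fder q t (0 : ℤ → Module.End K (Sy K)) = 0 := by
  funext k
  exact cm_zero_left q t _

theorem fder_mul (q t : K) (x y : ℤ → Module.End K (Sy K)) :
    fder q t (x * y) = x * fder q t y + fder q t x * y := by
  funext k
  exact cm_mul_left q t _ _ _

/-- words -/
def WZ (q t : K) (L : List ℤ) (k : ℤ) : Module.End K (Sy K) :=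
  (L.map (fun x : ℤ => Dk q t (x + k))).prod

theorem WZ_cons (q t : K) (x : ℤ) (L : List ℤ) : WZ q t (x :: L) = WZ q t [x] * WZ q t L := by
  funext k
  rw [Pi.mul_apply]
  simp [WZ]

theorem WF_genz (q t : K) (L : List ℤ) : WZ q t L ∈ WF q t L.length :=
  Submodule.subset_span ⟨L, rfl, rfl⟩

theorem WF_der_gen (h1 : ST_DX K) {q t : K} (hM : Mj q t 0 ≠ 0) (L : List ℤ) :
    fder q t (WZ q t L) ∈ WF q t L.length := by
  induction L with
  | nil =>
    have : fder q t (WZ q t []) = 0 := by
      funext k
      exact cm_one_left q t _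
    rw [this]
    exact Submodule.zero_mem _
  | cons x L ih =>
    have h2 : fder q t (WZ q t [x]) = WZ q t [x + 1] := by
      funext k
      have h3 := cm_Dk h1 hM (x + k)
      have h4 : x + k + 1 = x + 1 + k := by ring
      rw [h4] at h3
      simpa [fder, WZ] using h3
    rw [WZ_cons, fder_mul, h2, ← WZ_cons]
    refine Submodule.add_mem _ ?_ ?_
    · have := WF_mul (q := q) (t := t) 1 L.length _ _ (WF_genz q t [x]) ih
      rw [add_comm] at this
      exact this
    · exact WF_genz q t ((x + 1) :: L)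

theorem WF_der (h1 : ST_DX K) {q t : K} (hM : Mj q t 0 ≠ 0) {m : ℕ}
    {f : ℤ → Module.End K (Sy K)} (hf : f ∈ WF q t m) : fder q t f ∈ WF q t m := by
  refine Submodule.span_induction (p := fun f _ => fder q t f ∈ WF q t m) ?_ ?_ ?_ ?_ hf
  · rintro _ ⟨L, hL, rfl⟩
    subst hL
    exact WF_der_gen h1 hM L
  · rw [fder_zero]; exact Submodule.zero_mem _
  · intro x y _ _ hx hy
    rw [fder_add]; exact Submodule.add_mem _ hx hy
  · intro c x _ hx
    rw [fder_smul]; exact Submodule.smul_mem _ _ hx

theorem st_WM (K : Type*) [Field K] [CharZero K] (h1 : ST_DX K) : ST_WM K := by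
  intro q t hM
  exact ⟨fun m n f g hf hg => WF_mul m n f g hf hg, fun m f hf => WF_der h1 hM hf⟩

/-! ## pairs -/

theorem Del_BS (q t : K) (b : ℕ) : Del q t * BS q t b - BS q t b * Del q t = BS q t (b + 1) := by
  rw [BS, BS, if_neg (Nat.succ_ne_zero b)]
  split_ifs with h
  · subst h
    rw [mul_sub, sub_mul, mul_one, one_mul, sub_sub_sub_cancel_right]
    rfl
  · rfl

theorem WP_eq (q t : K) (m n : ℕ) : WP q t m n = Submodule.span K {p | ∃ L : List ℕ,
    L.length = m ∧ L.sum = n ∧
    p = ((fun k : ℤ => (L.map (fun x : ℕ => Dk q t ((x : ℤ) + k))).prod),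
      (L.reverse.map (fun x : ℕ => BS q t x)).prod)} := by
  have h : ∀ (L : List ℕ) (k : ℤ), (List.map (fun x => Dk q t (x + k)) (do
                    let a ← L
                    pure (a : ℤ))) = L.map (fun x : ℕ => Dk q t ((x : ℤ) + k)) := by
    intro L k
    induction L with
    | nil => rfl
    | cons a L ih =>
      rw [List.map_cons, ← ih]
      rfl
  unfold WP
  simp only [h]

/-- the word operators -/
def WD (q t : K) (L : List ℕ) (k : ℤ) : Module.End K (Sy K) :=
  (L.map (fun x : ℕ => Dk q t ((x : ℤ) + k))).prod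

/-- the reversed words -/
def WB (q t : K) (L : List ℕ) : Module.End K (Sy K) :=
  (L.reverse.map (fun x : ℕ => BS q t x)).prod

theorem WP_eq' (q t : K) (m n : ℕ) : WP q t m n = Submodule.span K {p | ∃ L : List ℕ,
    L.length = m ∧ L.sum = n ∧ p = (WD q t L, WB q t L)} := WP_eq q t m n

theorem WD_nil (q t : K) (k : ℤ) : WD q t [] k = 1 := rfl

theorem WB_nil (q t : K) : WB q t [] = 1 := rfl

theorem WD_cons (q t : K) (x : ℕ) (L : List ℕ) (k : ℤ) :
    WD q t (x :: L) k = Dk q t ((x : ℤ) + k) * WD q t L k := by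
  rw [WD, List.map_cons, List.prod_cons]
  rfl

theorem WB_cons (q t : K) (x : ℕ) (L : List ℕ) :
    WB q t (x :: L) = WB q t L * BS q t x := by
  rw [WB, List.reverse_cons, List.map_append, List.prod_append]
  simp [WB]

theorem WD_append (q t : K) (L L' : List ℕ) (k : ℤ) :
    WD q t (L ++ L') k = WD q t L k * WD q t L' k := by
  rw [WD, List.map_append, List.prod_append]
  rfl

theorem WB_append (q t : K) (L L' : List ℕ) :
    WB q t (L ++ L') = WB q t L' * WB q t L := by
  rw [WB, List.reverse_append, List.map_append, List.prod_append]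
  rfl

/-- induction principle for `WP` -/
theorem WP_ind {q t : K} {m n : ℕ} (P : (ℤ → Module.End K (Sy K)) × Module.End K (Sy K) → Prop)
    (hg : ∀ L : List ℕ, L.length = m → L.sum = n → P (WD q t L, WB q t L))
    (h0 : P 0) (ha : ∀ x y, P x → P y → P (x + y)) (hs : ∀ (c : K) x, P x → P (c • x))
    {p : (ℤ → Module.End K (Sy K)) × Module.End K (Sy K)} (hp : p ∈ WP q t m n) : P p := by
  rw [WP_eq'] at hp
  refine Submodule.span_induction (p := fun p _ => P p) ?_ h0 (fun x y _ _ hx hy => ha x y hx hy)
    (fun c x _ hx => hs c x hx) hp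
  rintro _ ⟨L, hL, hS, rfl⟩
  exact hg L hL hS

theorem WP_gen (q t : K) (L : List ℕ) : (WD q t L, WB q t L) ∈ WP q t L.length L.sum := by
  rw [WP_eq']
  exact Submodule.subset_span ⟨L, rfl, rfl, rfl⟩

theorem WP_gen' (q t : K) (L : List ℕ) {m n : ℕ} (hm : L.length = m) (hn : L.sum = n) :
    (WD q t L, WB q t L) ∈ WP q t m n := by
  subst hm
  subst hn
  exact WP_gen q t L

/-- product of two pairs -/
def pmul (p p' : (ℤ → Module.End K (Sy K)) × Module.End K (Sy K)) :
    (ℤ → Module.End K (Sy K)) × Module.End K (Sy K) :=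
  (p.1 * p'.1, p'.2 * p.2)

theorem pmul_add_left (x y p : (ℤ → Module.End K (Sy K)) × Module.End K (Sy K)) :
    pmul (x + y) p = pmul x p + pmul y p := by
  refine Prod.ext ?_ ?_
  · exact add_mul _ _ _
  · exact mul_add _ _ _

theorem pmul_add_right (p x y : (ℤ → Module.End K (Sy K)) × Module.End K (Sy K)) :
    pmul p (x + y) = pmul p x + pmul p y := by
  refine Prod.ext ?_ ?_
  · exact mul_add _ _ _
  · exact add_mul _ _ _

theorem pmul_smul_left (c : K) (x p : (ℤ → Module.End K (Sy K)) × Module.End K (Sy K)) :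
    pmul (c • x) p = c • pmul x p := by
  refine Prod.ext ?_ ?_
  · exact smul_mul_assoc _ _ _
  · exact mul_smul_comm _ _ _

theorem pmul_smul_right (c : K) (p x : (ℤ → Module.End K (Sy K)) × Module.End K (Sy K)) :
    pmul p (c • x) = c • pmul p x := by
  refine Prod.ext ?_ ?_
  · exact mul_smul_comm _ _ _
  · exact smul_mul_assoc _ _ _

theorem pmul_zero_left (p : (ℤ → Module.End K (Sy K)) × Module.End K (Sy K)) :
    pmul 0 p = 0 := by
  refine Prod.ext ?_ ?_
  · exact zero_mul _
  · exact mul_zero _

theorem pmul_zero_right (p : (ℤ → Module.End K (Sy K)) × Module.End K (Sy K)) :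
    pmul p 0 = 0 := by
  refine Prod.ext ?_ ?_
  · exact mul_zero _
  · exact zero_mul _

theorem WP_mul {q t : K} {m n m' n' : ℕ} {p p' : (ℤ → Module.End K (Sy K)) × Module.End K (Sy K)}
    (hp : p ∈ WP q t m n) (hp' : p' ∈ WP q t m' n') :
    pmul p p' ∈ WP q t (m + m') (n + n') := by
  refine WP_ind (P := fun p => pmul p p' ∈ WP q t (m + m') (n + n')) ?_ ?_ ?_ ?_ hp
  · intro L hL hS
    refine WP_ind (P := fun p' => pmul (WD q t L, WB q t L) p' ∈ WP q t (m + m') (n + n'))
      ?_ ?_ ?_ ?_ hp'
    · intro L' hL' hS'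
      have h := WP_gen' q t (L ++ L') (m := m + m') (n := n + n') (by simp [hL, hL'])
        (by simp [hS, hS'])
      have e : (WD q t (L ++ L'), WB q t (L ++ L')) = pmul (WD q t L, WB q t L)
          (WD q t L', WB q t L') := by
        refine Prod.ext ?_ ?_
        · funext k
          exact WD_append q t L L' k
        · exact WB_append q t L L'
      rw [← e]
      exact h
    · rw [pmul_zero_right]; exact Submodule.zero_mem _
    · intro x y hx hy
      rw [pmul_add_right]; exact Submodule.add_mem _ hx hy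
    · intro c x hx
      rw [pmul_smul_right]; exact Submodule.smul_mem _ _ hx
  · rw [pmul_zero_left]; exact Submodule.zero_mem _
  · intro x y hx hy
    rw [pmul_add_left]; exact Submodule.add_mem _ hx hy
  · intro c x hx
    rw [pmul_smul_left]; exact Submodule.smul_mem _ _ hx

/-- the derivation on pairs -/
def pder (q t : K) (p : (ℤ → Module.End K (Sy K)) × Module.End K (Sy K)) :
    (ℤ → Module.End K (Sy K)) × Module.End K (Sy K) :=
  ((fun k => cm q t (p.1 k) (mu (X 0))), Del q t * p.2 - p.2 * Del q t)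

theorem pder_add (q t : K) (x y : (ℤ → Module.End K (Sy K)) × Module.End K (Sy K)) :
    pder q t (x + y) = pder q t x + pder q t y := by
  refine Prod.ext ?_ ?_
  · funext k
    exact cm_add_left q t _ _ _
  · change Del q t * (x.2 + y.2) - (x.2 + y.2) * Del q t
      = Del q t * x.2 - x.2 * Del q t + (Del q t * y.2 - y.2 * Del q t)
    noncomm_ring

theorem pder_smul (q t : K) (c : K) (x : (ℤ → Module.End K (Sy K)) × Module.End K (Sy K)) :
    pder q t (c • x) = c • pder q t x := by
  refine Prod.ext ?_ ?_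
  · funext k
    exact cm_smul_left q t _ _ _
  · change Del q t * (c • x.2) - (c • x.2) * Del q t = c • (Del q t * x.2 - x.2 * Del q t)
    rw [mul_smul_comm, smul_mul_assoc, smul_sub]

theorem pder_zero (q t : K) :
    pder q t (0 : (ℤ → Module.End K (Sy K)) × Module.End K (Sy K)) = 0 := by
  refine Prod.ext ?_ ?_
  · funext k
    exact cm_zero_left q t _
  · change Del q t * (0 : Module.End K (Sy K)) - 0 * Del q t = 0
    rw [mul_zero, zero_mul, sub_zero]

theorem pder_mul (q t : K) (x y : (ℤ → Module.End K (Sy K)) × Module.End K (Sy K)) :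
    pder q t (pmul x y) = pmul x (pder q t y) + pmul (pder q t x) y := by
  refine Prod.ext ?_ ?_
  · funext k
    exact cm_mul_left q t _ _ _
  · change Del q t * (y.2 * x.2) - (y.2 * x.2) * Del q t
      = (Del q t * y.2 - y.2 * Del q t) * x.2 + y.2 * (Del q t * x.2 - x.2 * Del q t)
    rw [sub_mul, mul_sub, mul_assoc, mul_assoc, mul_assoc, sub_add_sub_cancel]

theorem pder_single (h1 : ST_DX K) {q t : K} (hM : Mj q t 0 ≠ 0) (x : ℕ) :
    pder q t (WD q t [x], WB q t [x]) = (WD q t [x + 1], WB q t [x + 1]) := by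
  refine Prod.ext ?_ ?_
  · funext k
    change cm q t (WD q t [x] k) (mu (X 0)) = WD q t [x + 1] k
    rw [WD_cons, WD_cons, WD_nil, mul_one, mul_one, cm_Dk h1 hM]
    congr 1
    push_cast
    ring
  · change Del q t * WB q t [x] - WB q t [x] * Del q t = WB q t [x + 1]
    rw [WB_cons, WB_cons, WB_nil, one_mul, one_mul, Del_BS]

theorem pair_cons (q t : K) (x : ℕ) (L : List ℕ) :
    (WD q t (x :: L), WB q t (x :: L))
      = pmul (WD q t [x], WB q t [x]) (WD q t L, WB q t L) := by
  refine Prod.ext ?_ ?_
  · funext k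
    change WD q t (x :: L) k = WD q t [x] k * WD q t L k
    rw [WD_cons, WD_cons, WD_nil, mul_one]
  · change WB q t (x :: L) = WB q t L * WB q t [x]
    rw [WB_cons, WB_cons, WB_nil, one_mul]

theorem WP_der_gen (h1 : ST_DX K) {q t : K} (hM : Mj q t 0 ≠ 0) (L : List ℕ) :
    pder q t (WD q t L, WB q t L) ∈ WP q t L.length (L.sum + 1) := by
  induction L with
  | nil =>
    have : pder q t (WD q t [], WB q t []) = 0 := by
      refine Prod.ext ?_ ?_
      · funext k
        exact cm_one_left q t _
      · change Del q t * (1 : Module.End K (Sy K)) - 1 * Del q t = 0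
        rw [mul_one, one_mul, sub_self]
    rw [this]
    exact Submodule.zero_mem _
  | cons x L ih =>
    rw [pair_cons, pder_mul, pder_single h1 hM, ← pair_cons]
    refine Submodule.add_mem _ ?_ ?_
    · have h2 := WP_mul (WP_gen q t [x]) ih
      have e1 : [x].length + L.length = (x :: L).length := by simp [add_comm]
      have e2 : [x].sum + (L.sum + 1) = (x :: L).sum + 1 := by simp [add_assoc]
      rw [e1, e2] at h2
      exact h2
    · refine WP_gen' q t ((x + 1) :: L) (by simp) (by simp; ring)

theorem WP_der (h1 : ST_DX K) {q t : K} (hM : Mj q t 0 ≠ 0) {m n : ℕ}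
    {p : (ℤ → Module.End K (Sy K)) × Module.End K (Sy K)}
    (hp : p ∈ WP q t m n) : pder q t p ∈ WP q t m (n + 1) := by
  refine WP_ind (P := fun p => pder q t p ∈ WP q t m (n + 1)) ?_ ?_ ?_ ?_ hp
  · intro L hL hS
    subst hL
    subst hS
    exact WP_der_gen h1 hM L
  · rw [pder_zero]; exact Submodule.zero_mem _
  · intro x y hx hy
    rw [pder_add]; exact Submodule.add_mem _ hx hy
  · intro c x hx
    rw [pder_smul]; exact Submodule.smul_mem _ _ hx

theorem st_WPM (K : Type*) [Field K] [CharZero K] (h1 : ST_DX K) : ST_WPM K := by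
  intro q t hM
  exact ⟨fun m n m' n' p p' hp hp' => WP_mul hp hp', fun m n p hp => WP_der h1 hM hp⟩

end

end TH50
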