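import Pool.Agent.Helper50.TH.NT
import Pool.Agent.Helper50.TH.WM

/-! # Row Q1 of the project TH -/

namespace TH50

open TH MvPolynomial Finset

set_option linter.unusedSectionVars false

noncomputable section
variable {K : Type*} [Field K] [CharZero K]

theorem Bn_succ (q t : K) (b : ℕ) : Bn q t (b + 1) = cm q t (Bn q t b) (Dk q t 0) := by
  change Del q t * Bn q t b - Bn q t b * Del q t = cm q t (Bn q t b) (Dk q t 0)
  refine LinearMap.ext fun F => ?_
  rw [LinearMap.sub_apply, Module.End.mul_apply, Module.End.mul_apply, cm_apply]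
  simp only [Del, LinearMap.smul_apply, LinearMap.sub_apply, Module.End.one_apply, map_smul, map_sub]
  rw [← smul_sub]
  congr 1
  abel

theorem adm_one (k a b c d : ℕ) (h : Adm 1 (k + 1) a b c d) : a = 1 ∧ b = k ∧ c = 0 ∧ d = 1 := by
  obtain ⟨⟨_, _, h3, h4, _, _⟩, _⟩ := st_NT 1 (k + 1) a b c d one_pos (Nat.succ_pos k) h
  obtain ⟨h5, h6, h7⟩ := h
  have ha : a = 1 := by omega
  have hc : c = 0 := by omega
  subst ha
  subst hc
  rw [one_mul, mul_zero, Nat.gcd_one_left] at h7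
  omega

theorem adm_one' (k a b c d : ℕ) (h : Adm (k + 1) 1 a b c d) : a = 1 ∧ b = 0 ∧ c = k ∧ d = 1 := by
  obtain ⟨⟨_, _, h3, h4, _, _⟩, _⟩ := st_NT (k + 1) 1 a b c d (Nat.succ_pos k) one_pos h
  obtain ⟨h5, h6, h7⟩ := h
  have hd : d = 1 := by omega
  have hb : b = 0 := by omega
  subst hd
  subst hb
  rw [mul_one, zero_mul, Nat.gcd_one_right] at h7
  omega

theorem adm_up (i a b c d : ℕ) (hi : 0 < i) (h : Adm i (i + 1) a b c d) :
    a = 1 ∧ b = 1 ∧ c = i - 1 ∧ d = i := by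
  obtain ⟨⟨_, _, h3, h4, _, _⟩, h8, _⟩ := st_NT i (i + 1) a b c d hi (Nat.succ_pos i) h
  obtain ⟨h9, h10, _, h5, h6, h7⟩ := h8 (by omega)
  have hg : Nat.gcd i (i + 1 - i) = 1 := by
    rw [Nat.add_sub_cancel_left, Nat.gcd_one_right]
  rw [hg] at h7
  have hba : b - a = 0 := by
    by_contra hne
    have h11 : b - a = 1 := by omega
    have h12 : d - c = 0 := by omega
    omega
  have h12 : d - c = 1 := by omega
  rw [hba, h12, zero_mul, mul_one] at h7
  omega

theorem adm_dn (j a b c d : ℕ) (hj : 0 < j) (h : Adm (j + 1) j a b c d) :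
    a = j ∧ b = j - 1 ∧ c = 1 ∧ d = 1 := by
  obtain ⟨⟨_, _, h3, h4, _, _⟩, _, h8, _⟩ := st_NT (j + 1) j a b c d (Nat.succ_pos j) hj h
  obtain ⟨h9, h10, _, h5, h6, h7⟩ := h8 (by omega)
  have hg : Nat.gcd (j + 1 - j) j = 1 := by
    rw [Nat.add_sub_cancel_left, Nat.gcd_one_left]
  rw [hg] at h7
  have hcd : c - d = 0 := by
    by_contra hne
    have h11 : c - d = 1 := by omega
    have h12 : a - b = 0 := by omega
    omega
  have h12 : a - b = 1 := by omega
  rw [hcd, h12, mul_zero, one_mul] at h7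
  omega

theorem st_Q1 (K : Type*) [Field K] [CharZero K] (h1 : ST_DX K) : ST_Q1 K := by
  intro q t hG Q hQ
  have hM : Mj q t 0 ≠ 0 := hG.Mj_ne 0
  refine ⟨?_, ?_, ?_, ?_⟩
  · intro i hi
    obtain ⟨a, b, c, d, hA, hQe⟩ := hQ.rc i (i + 1) hi (Nat.succ_pos i)
    obtain ⟨rfl, rfl, rfl, rfl⟩ := adm_up i a b c d hi hA
    exact hQe
  · intro j hj
    obtain ⟨a, b, c, d, hA, hQe⟩ := hQ.rc (j + 1) j (Nat.succ_pos j) hj
    obtain ⟨rfl, rfl, rfl, rfl⟩ := adm_dn j a b c d hj hA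
    exact hQe
  · intro k
    induction k with
    | zero => exact hQ.q10
    | succ k ih =>
      obtain ⟨a, b, c, d, hA, hQe⟩ := hQ.rc 1 (k + 1) one_pos (Nat.succ_pos k)
      obtain ⟨rfl, rfl, rfl, rfl⟩ := adm_one k a b c d hA
      rw [hQe, ih, hQ.q01, cm_neg_left, cm_swap, neg_neg, cm_Dk h1 hM, Nat.cast_succ]
  · intro k
    induction k with
    | zero => exact hQ.q01
    | succ k ih =>
      obtain ⟨a, b, c, d, hA, hQe⟩ := hQ.rc (k + 1) 1 (Nat.succ_pos k) one_pos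
      obtain ⟨rfl, rfl, rfl, rfl⟩ := adm_one' k a b c d hA
      rw [hQe, ih, hQ.q10, cm_neg_left, Bn_succ]

end

end TH50
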