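import Pool.Agent.Helper50.TH.Q1

/-! # Rows WQ, COM and WL of the project TH -/

namespace TH50

open TH MvPolynomial Finset

set_option linter.unusedSectionVars false

noncomputable section
variable {K : Type*} [Field K] [CharZero K]

theorem cm_scalar_left (q t : K) (δ : K) (V : Module.End K (Sy K)) :
    cm q t (δ • (1 : Module.End K (Sy K))) V = 0 := by
  rw [cm_smul_left, cm_one_left, smul_zero]

theorem cm_scalar_right (q t : K) (δ : K) (V : Module.End K (Sy K)) :
    cm q t V (δ • (1 : Module.End K (Sy K))) = 0 := by
  rw [cm_swap, cm_scalar_left, neg_zero]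

theorem Del_comm (q t : K) (B : Module.End K (Sy K)) :
    Del q t * B - B * Del q t = cm q t B (Dk q t 0) := by
  refine LinearMap.ext fun F => ?_
  rw [LinearMap.sub_apply, Module.End.mul_apply, Module.End.mul_apply, cm_apply]
  simp only [Del, LinearMap.smul_apply, LinearMap.sub_apply, Module.End.one_apply, map_smul, map_sub]
  rw [← smul_sub]
  congr 1
  abel

/-- the induction for WQ, including the pair `(1, 0)` -/
theorem WQ_aux (h1 : ST_DX K) {q t : K} (hG : Gn q t) {Q : ℕ → ℕ → Module.End K (Sy K)}
    (hQ : QF q t Q) (hI : IND q t Q) (N : ℕ) : ∀ a b : ℕ, a + b = N → 0 < a → (b = 0 → a = 1) →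
    ∃ p ∈ WP q t a b, (∀ k : ℕ, p.1 (k : ℤ) = Q a (b + k * a)) ∧
      ∃ δ : K, p.2 = (-1 : K) ^ a • Q b a + δ • (1 : Module.End K (Sy K)) ∧ (0 < b → δ = 0) := by
  have hM : Mj q t 0 ≠ 0 := hG.Mj_ne 0
  have hq1 := st_Q1 K h1 q t hG Q hQ
  induction N using Nat.strong_induction_on with
  | _ N ih =>
    intro m n hN hm hn
    rcases Nat.eq_zero_or_pos n with h0 | hn0
    · have hm1 := hn h0
      subst h0
      subst hm1
      refine ⟨(WD q t [0], WB q t [0]), WP_gen q t [0], fun k => ?_, -1, ?_, fun h => absurd h (by omega)⟩
      · change WD q t [0] (k : ℤ) = Q 1 (0 + k * 1)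
        rw [WD_cons, WD_nil, mul_one, zero_add, mul_one, hq1.2.2.1]
        congr 1
        push_cast
        ring
      · change WB q t [0] = (-1 : K) ^ 1 • Q 0 1 + (-1 : K) • (1 : Module.End K (Sy K))
        rw [WB_cons, WB_nil, one_mul, hQ.q01, BS, if_pos rfl]
        refine LinearMap.ext fun F => ?_
        simp only [LinearMap.add_apply, LinearMap.sub_apply, LinearMap.smul_apply,
          LinearMap.neg_apply, Module.End.one_apply, pow_one]
        change mu (X 0) F - F = _
        module
    · obtain ⟨a, b, c, d, hA, hQe⟩ := hQ.rc m n hm hn0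
      obtain ⟨⟨l1, l2, ha, hd, hba, hcd⟩, _⟩ := st_NT m n a b c d hm hn0 hA
      have hA' := hA
      obtain ⟨e1, e2, e3⟩ := hA'
      obtain ⟨pa, hpa, hpa1, δa, hpa2, _⟩ := ih (a + b) (by omega) a b rfl ha hba
      -- the splitting of the shifted pair
      have hAk : ∀ k : ℕ, Adm m (n + k * m) a (b + k * a) c (d + k * c) := by
        intro k
        refine ⟨e1, ?_, ?_⟩
        · rw [← e2, ← e1]; ring
        · have hgk : Nat.gcd m (n + k * m) = Nat.gcd m n := by
            rw [Nat.gcd_add_mul_right_right]
          rw [hgk]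
          have : a * (d + k * c) = a * d + k * a * c := by ring
          rw [this, e3]; ring
      have hAs : Adm n m d c b a := by
        refine ⟨by omega, by omega, ?_⟩
        rw [Nat.gcd_comm n m, mul_comm d a, e3, mul_comm b c]
      rcases Nat.eq_zero_or_pos c with hc0 | hc0
      · -- derivation
        have hd1 := hcd hc0
        subst hc0
        subst hd1
        have ham : a = m := by omega
        subst ham
        refine ⟨pder q t pa, ?_, fun k => ?_, 0, ?_, fun _ => rfl⟩
        · have := WP_der h1 hM hpa
          rw [← e2]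
          exact this
        · change cm q t (pa.1 (k : ℤ)) (mu (X 0)) = Q a (n + k * a)
          have h2 := hI a (n + k * a) hm (by omega) _ _ _ _ (hAk k)
          rw [mul_zero, add_zero, hQ.q01, cm_neg_left, cm_swap, neg_neg] at h2
          rw [hpa1, h2]
        · change Del q t * pa.2 - pa.2 * Del q t = _
          have h2 := hI n a hn0 hm _ _ _ _ hAs
          -- the splitting used below
          have hA2 : Adm n a 1 0 b a := by
            refine ⟨by omega, by omega, ?_⟩
            have h3 := hAs.2.2
            rw [zero_mul, zero_add] at h3 ⊢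
            exact h3
          have h3 := hI n a hn0 hm _ _ _ _ hA2
          rw [Del_comm, hpa2, cm_add_left, cm_scalar_left, add_zero, cm_smul_left, h3, hQ.q10,
            zero_smul, add_zero]
      · obtain ⟨pc, hpc, hpc1, δc, hpc2, hδc⟩ := ih (c + d) (by omega) c d rfl hc0
          (fun h => absurd h (by omega))
        refine ⟨(Mj q t 0)⁻¹ • (pmul pc pa - pmul pa pc), ?_, fun k => ?_, 0, ?_, fun _ => rfl⟩
        · refine Submodule.smul_mem _ _ (Submodule.sub_mem _ ?_ ?_)
          · have := WP_mul hpc hpa
            have e4 : c + a = m := by omega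
            have e5 : d + b = n := by omega
            rw [e4, e5] at this
            exact this
          · have := WP_mul hpa hpc
            rw [e1, e2] at this
            exact this
        · change cm q t (pc.1 (k : ℤ)) (pa.1 (k : ℤ)) = Q m (n + k * m)
          have h2 := hI m (n + k * m) hm (by omega) _ _ _ _ (hAk k)
          rw [hpa1, hpc1, h2]
        · change cm q t pa.2 pc.2 = _
          have h2 := hI n m hn0 hm _ _ _ _ hAs
          have h3 := hδc hd
          subst h3
          rw [hpc2, hpa2, zero_smul, add_zero, cm_add_left, cm_scalar_left, add_zero, cm_smul_left,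
            cm_smul_right, smul_smul, ← pow_add, e1, ← h2, add_zero]

theorem st_WQ (K : Type*) [Field K] [CharZero K] (h1 : ST_DX K) : ST_WQ K := by
  intro q t hG Q hQ hI m n hm hn
  obtain ⟨p, hp, hp1, δ, hp2, hδ⟩ := WQ_aux h1 hG hQ hI (m + n) m n rfl hm
    (fun h => absurd h (by omega))
  refine ⟨p, hp, hp1, ?_⟩
  have h3 := hδ hn
  subst h3
  rw [hp2, zero_smul, add_zero]

/-! ## commutation on a ray -/

theorem st_COM (K : Type*) [Field K] [CharZero K] (hIND : ST_IND K) (hBA : ST_BA K) (hS : ST_S K)
    (hWM : ST_WM K) (hNA : ST_NA K) : ST_COM K := by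
  intro q t hG b hb Q hQ
  have hM : Mj q t 0 ≠ 0 := hG.Mj_ne 0
  obtain ⟨hI, hfam, hnab⟩ := hIND q t hG b hb Q hQ
  obtain ⟨hn1, hn2, _, _⟩ := hNA q t hG b hb
  have hmul := (hWM q t hM).1
  -- commutator of two families
  have hcomm : ∀ (m n : ℕ) (f g : ℤ → Module.End K (Sy K)) (k : ℤ), f ∈ WF q t m → g ∈ WF q t n →
      f k * g k = g k * f k → f (k + 1) * g (k + 1) = g (k + 1) * f (k + 1) := by
    intro m n f g k hf hg h
    have h2 : (fun k => f k * g k) - (fun k => g k * f k) ∈ WF q t (m + n) := by
      refine Submodule.sub_mem _ (hmul m n f g hf hg) ?_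
      rw [add_comm m n]
      exact hmul n m g f hg hf
    have h3 := hS q t hG (m + n) _ k h2 (by
      rw [Pi.sub_apply, sub_eq_zero]
      exact h)
    rw [Pi.sub_apply, sub_eq_zero] at h3
    exact h3
  have main : ∀ N : ℕ, ∀ m n : ℕ, m + n = N → 0 < m → 0 < n → Nat.Coprime m n → ∀ i j : ℕ, 0 < i →
      0 < j → Q (i * m) (i * n) * Q (j * m) (j * n) = Q (j * m) (j * n) * Q (i * m) (i * n) := by
    intro N
    induction N using Nat.strong_induction_on with
    | _ N ih =>
      intro m n hN hm hn hco i j hi hj
      rcases lt_trichotomy m n with h | h | h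
      · -- m < n
        have hco' : Nat.Coprime m (n - m) := (Nat.coprime_sub_self_right h.le).2 hco
        have h2 := ih n (by omega) m (n - m) (by omega) hm (by omega) hco' i j hi hj
        have hpos : ∀ i : ℕ, 0 < i → 0 < i * (n - m) := fun i hi => Nat.mul_pos hi (by omega)
        obtain ⟨f, hf, hf0, hf1⟩ := hfam (i * m) (i * (n - m)) (Nat.mul_pos hi hm)
          (Or.inl (hpos i hi))
        obtain ⟨g, hg, hg0, hg1⟩ := hfam (j * m) (j * (n - m)) (Nat.mul_pos hj hm)
          (Or.inl (hpos j hj))
        have h3 := hcomm _ _ f g 0 hf hg (by rw [hf0, hg0]; exact h2)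
        rw [zero_add, hf1, hg1] at h3
        have e : ∀ i : ℕ, i * (n - m) + i * m = i * n := by
          intro i
          rw [← mul_add, Nat.sub_add_cancel h.le]
        rw [e, e] at h3
        exact h3
      · -- m = n
        subst h
        have hm1 : m = 1 := by
          have := hco
          rw [Nat.coprime_self] at this
          exact this
        subst hm1
        rw [mul_one, mul_one]
        obtain ⟨Φ, ψ, hΦ⟩ := hBA q t hG b hb Q hQ
        have hQi : ∀ i : ℕ, 0 < i → Q i i = Φ i 0 := by
          intro i hi
          have hA : Adm i i i (i - 1) 0 1 := by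
            refine ⟨by omega, by omega, ?_⟩
            rw [Nat.gcd_self]; ring
          have h2 := hI i i hi hi _ _ _ _ hA
          have h3 := (hΦ i hi).2.2 0 (i - 1) (by omega)
          have e4 : i - 1 + 1 = i := by omega
          rw [e4, zero_add] at h3
          rw [h2, h3]
        have h3 := hcomm i j (Φ i) (Φ j) (-1) (hΦ i hi).1 (hΦ j hj).1 (by
          rw [(hΦ i hi).2.1, (hΦ j hj).2.1, dg_comm])
        rw [neg_add_cancel] at h3
        rw [hQi i hi, hQi j hj]
        exact h3
      · -- n < m
        have hco' : Nat.Coprime (m - n) n := (Nat.coprime_sub_self_left h.le).2 hco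
        have h2 := ih m (by omega) (m - n) n (by omega) (by omega) hn hco' i j hi hj
        have h3 : ∀ i : ℕ, 0 < i → nab q t b * Q (i * (m - n)) (i * n) = Q (i * m) (i * n) * nab q t b := by
          intro i hi
          have := hnab (i * (m - n)) (i * n) (Nat.mul_pos hi hn)
            (Or.inl (Nat.mul_pos hi (by omega)))
          rw [← mul_add, Nat.sub_add_cancel h.le] at this
          exact this
        have h4 : ∀ i : ℕ, 0 < i → Q (i * m) (i * n)
            = nab q t b * Q (i * (m - n)) (i * n) * nabi q t b := by
          intro i hi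
          rw [h3 i hi, mul_assoc, hn1, mul_one]
        have h5 : ∀ A B : Module.End K (Sy K), nab q t b * A * nabi q t b * (nab q t b * B * nabi q t b)
            = nab q t b * (A * B) * nabi q t b := by
          intro A B
          calc nab q t b * A * nabi q t b * (nab q t b * B * nabi q t b)
              = nab q t b * A * (nabi q t b * nab q t b) * B * nabi q t b := by
                simp only [mul_assoc]
            _ = nab q t b * (A * B) * nabi q t b := by
                rw [hn2, mul_one, mul_assoc (nab q t b) A B]
        rw [h4 i hi, h4 j hj, h5, h5, h2]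
  intro m n i j hm hn hi hj hco
  exact main (m + n) m n rfl hm hn hco i j hi hj

/-! ## products on a ray -/

theorem st_WL (K : Type*) [Field K] [CharZero K] (hIND : ST_IND K) (hWQ : ST_WQ K)
    (hCOM : ST_COM K) : ST_WL K := by
  intro q t hG b hb Q hQ m n hm hn hco l hl
  obtain ⟨hI, _, _⟩ := hIND q t hG b hb Q hQ
  have hcom := hCOM q t hG b hb Q hQ
  induction l with
  | nil =>
    refine ⟨(WD q t [], WB q t []), ?_, fun k => ?_, ?_⟩
    · have := WP_gen q t ([] : List ℕ)
      simpa using this
    · change WD q t [] (k : ℤ) = _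
      rw [WD_nil]
      simp
    · change WB q t [] = _
      rw [WB_nil]
      simp
  | cons i l ih =>
    obtain ⟨p, hp, hp1, hp2⟩ := ih (fun j hj => hl j (List.mem_cons_of_mem _ hj))
    have hi : 0 < i := hl i List.mem_cons_self
    obtain ⟨p', hp', hp1', hp2'⟩ := hWQ q t hG Q hQ hI (i * m) (i * n) (Nat.mul_pos hi hm)
      (Nat.mul_pos hi hn)
    refine ⟨pmul p' p, ?_, fun k => ?_, ?_⟩
    · have := WP_mul hp' hp
      rw [← add_mul, ← add_mul] at this
      rw [List.sum_cons]
      exact this
    · change p'.1 (k : ℤ) * p.1 (k : ℤ) = _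
      rw [hp1, hp1', List.map_cons, List.prod_cons]
      have e : i * n + k * (i * m) = i * (n + k * m) := by ring
      rw [e]
    · change p.2 * p'.2 = _
      rw [hp2, hp2', List.sum_cons, List.map_cons, List.prod_cons]
      have hc : ∀ l : List ℕ, (∀ j ∈ l, 0 < j) →
          (l.map (fun i => Q (i * n) (i * m))).prod * Q (i * n) (i * m)
            = Q (i * n) (i * m) * (l.map (fun i => Q (i * n) (i * m))).prod := by
        intro l hl
        induction l with
        | nil => simp
        | cons j l ih =>
          rw [List.map_cons, List.prod_cons, mul_assoc, ih (fun x hx => hl x (List.mem_cons_of_mem _ hx)),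
            ← mul_assoc, hcom n m j i hn hm (hl j List.mem_cons_self) hi hco.symm, mul_assoc]
      rw [smul_mul_smul_comm, hc l (fun j hj => hl j (List.mem_cons_of_mem _ hj)), add_mul, pow_add,
        mul_comm ((-1 : K) ^ (l.sum * m))]

end

end TH50
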